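import Pool.Agent.Lib.SAC75.HMain

/-!
Modules `H` with `m² H = 0` over an artinian local ring: the part of the socle outside `m H`
splits off, and the resulting bound for the Bass numbers of the syzygies.
-/

set_option autoImplicit false

open CategoryTheory IsLocalRing

universe u

namespace SAC94

open SAC84 SAC75

section ret

variable {R : Type u} [CommRing R] [IsLocalRing R] [IsArtinianRing R] [IsNoetherianRing R]

omit [IsArtinianRing R] [IsNoetherianRing R] in
lemma simple_k : IsSimpleModule R (R ⧸ maximalIdeal R) :=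
  isSimpleModule_iff_isCoatom.2 (maximalIdeal.isMaximal R).out

lemma semisimple_of_killed {X : Type u} [AddCommGroup X] [Module R X] [Module.Finite R X]
    (hk : ∀ a ∈ maximalIdeal R, ∀ x : X, a • x = 0) : IsSemisimpleModule R X := by
  obtain ⟨e⟩ := killed_equiv hk
  have : IsSimpleModule R (R ⧸ maximalIdeal R) := simple_k
  exact IsSemisimpleModule.congr e

/-- The part of a submodule killed by the maximal ideal which lies outside `W` splits off, if
the quotient by `W` is killed by the maximal ideal. -/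
lemma exists_retract {H : Type u} [AddCommGroup H] [Module R H] [Module.Finite R H]
    (W S : Submodule R H) (hWS : W ≤ S) (hS : ∀ a ∈ maximalIdeal R, ∀ x : S, a • x = 0)
    (hW : ∀ a ∈ maximalIdeal R, ∀ x : H ⧸ W, a • x = 0) :
    ∃ (V : Submodule R (H ⧸ W)) (ι : V →ₗ[R] H) (π : H →ₗ[R] V), π ∘ₗ ι = LinearMap.id ∧
      ln R S = ln R W + ln R V := by
  have ssS : IsSemisimpleModule R S := semisimple_of_killed hS
  have ssX : IsSemisimpleModule R (H ⧸ W) := semisimple_of_killed hW
  let V : Submodule R (H ⧸ W) := Submodule.map W.mkQ S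
  let q : S →ₗ[R] V := (W.mkQ ∘ₗ S.subtype).codRestrict V (fun x => ⟨x.1, x.2, rfl⟩)
  have hq : Function.Surjective q := by
    rintro ⟨_, x, hx, rfl⟩
    exact ⟨⟨x, hx⟩, rfl⟩
  obtain ⟨σ, hσ⟩ := IsSemisimpleModule.lifting_property q hq LinearMap.id
  obtain ⟨π0, hπ0⟩ := IsSemisimpleModule.extension_property V.subtype V.injective_subtype
    LinearMap.id
  refine ⟨V, S.subtype ∘ₗ σ, π0 ∘ₗ W.mkQ, ?_, ?_⟩
  · apply LinearMap.ext
    intro v
    have h1 : q (σ v) = v := congrArg (fun z => z v) hσ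
    have h2 : W.mkQ (S.subtype (σ v)) = V.subtype v := by
      have := congrArg Subtype.val h1
      exact this
    change π0 (W.mkQ (S.subtype (σ v))) = v
    rw [h2]
    exact congrArg (fun z => z v) hπ0
  · have h1 : Function.Exact (Submodule.inclusion hWS) q := by
      intro x
      constructor
      · intro hx
        have h2 : W.mkQ x.1 = 0 := congrArg Subtype.val hx
        rw [Submodule.mkQ_apply, Submodule.Quotient.mk_eq_zero] at h2
        exact ⟨⟨x.1, h2⟩, rfl⟩
      · rintro ⟨w, rfl⟩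
        apply Subtype.ext
        exact (Submodule.Quotient.mk_eq_zero _).2 w.2
    exact ln_add (Submodule.inclusion_injective hWS) hq h1

variable [HasExt.{u} (ModuleCat.{u} R)]

/-- The resulting bound for `Ext` from `H`. -/
lemma retract_le {H : Type u} [AddCommGroup H] [Module R H] [Module.Finite R H]
    (W S : Submodule R H) (hWS : W ≤ S) (hS : ∀ a ∈ maximalIdeal R, ∀ x : S, a • x = 0)
    (hW : ∀ a ∈ maximalIdeal R, ∀ x : H ⧸ W, a • x = 0)
    (Y : Type u) [AddCommGroup Y] [Module R Y] [Module.Finite R Y] (n : ℕ) {q p : ℕ}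
    (hq : q ≤ ln R (H ⧸ W)) (hp : p ≤ ln R S) :
    (((q + p - ln R H) * mu R Y n : ℕ) : ℕ∞) ≤ el R H Y n := by
  obtain ⟨V, ι, π, hπ, hln⟩ := exists_retract W S hWS hS hW
  have h1 : el R V Y n ≤ el R H Y n := by
    refine Module.length_le_of_injective (qf Y π n) ?_
    refine Function.LeftInverse.injective (g := qf Y ι n) fun y => ?_
    rw [← qf_comp, hπ, qf_id]
  have h2 : ∀ a ∈ maximalIdeal R, ∀ x : V, a • x = 0 :=
    fun a ha x => Subtype.ext (hW a ha x.1)
  rw [el_killed' Y h2, ← coe_mu] at h1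
  refine le_trans ?_ h1
  have h3 : ln R H = ln R W + ln R (H ⧸ W) := ln_sub_add W
  have h4 : q + p - ln R H ≤ ln R V := by omega
  exact_mod_cast Nat.mul_le_mul_right _ h4

end ret

section pone

variable {R : Type u} [CommRing R] [IsLocalRing R] [IsArtinianRing R] [IsNoetherianRing R]
  [HasExt.{u} (ModuleCat.{u} R)]

/-- Decay of `Ext` from the modules of homomorphisms, in a sharper form. -/
lemma decay' (M : FGM R) (Y : Type u) [AddCommGroup Y] [Module R Y] [Module.Finite R Y]
    (i j : ℕ) (h : ∀ i', i ≤ i' → ExtZ R (sy M i').car (sy M j).car 1)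
    (h' : ∀ n, ExtZ R (sy M j).car Y (n + 1)) (n : ℕ) :
    el R ((sy M (i + n + 1)).car →ₗ[R] (sy M j).car) Y n ≤
      ((bt M i * ln R ((sy M j).car →ₗ[R] Y) : ℕ) : ℕ∞) := by
  induction n with
  | zero =>
    have h1 := el_zero_surj (Y := Y) (LinearMap.lcomp R (sy M j).car (inc M i))
      (fun φ => ExtZ.extend (inc_inj M i) (pro_surj M i) (inc_pro M i) (h i le_rfl) φ)
    rw [← el_eq_equiv' (homPi (R := R) (Y := (sy M j).car) (bt M i)), el_pi'] at h1
    refine h1.trans ?_
    rw [el_zero, ← coe_ln]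
    push_cast
    exact le_rfl
  | succ n ih =>
    have h1 := decay_succ M Y (i + n + 1) j n (h _ (by omega))
    rw [(el_eq_zero_iff (R := R) (n + 1)).2 (h' n), mul_zero, add_zero] at h1
    exact h1.trans ih

/-- The maximal ideal times a module of homomorphisms lies in the socle. -/
lemma smul_le_soc (M : FGM R) (h4 : maximalIdeal R ^ 4 = ⊥) (i j : ℕ)
    (h1 : ExtZ R (sy M (i + 1)).car (sy M (j + 2)).car 1)
    (h2 : ExtZ R (sy M i).car R 1) :
    (maximalIdeal R • (⊤ : Submodule R ((sy M (i + 1)).car →ₗ[R] (sy M (j + 1)).car))) ≤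
      SAC3.soc R ((sy M (i + 1)).car →ₗ[R] (sy M (j + 1)).car) := by
  rw [Submodule.smul_le]
  intro a ha f _ b hb
  apply LinearMap.ext
  intro x
  apply inc_inj M j
  funext t
  have h5 := factor_sq M i j h1 h2 f x t
  change inc M j (b • a • f x) t = inc M j 0 t
  rw [map_smul, map_smul, map_zero]
  change b * (a * inc M j (f x) t) = 0
  have h6 : b * (a * inc M j (f x) t) ∈ maximalIdeal R ^ 4 := by
    have : maximalIdeal R ^ 4 = maximalIdeal R * (maximalIdeal R * maximalIdeal R ^ 2) := by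
      ring
    rw [this]
    exact Ideal.mul_mem_mul hb (Ideal.mul_mem_mul ha h5)
  rw [h4] at h6
  simpa using h6

/-- Piece P1. -/
theorem pieceP1 (M : FGM R) (h4 : maximalIdeal R ^ 4 = ⊥) (hR : ∀ n, ExtZ R M.car R (n + 1))
    {N : ℕ} (hM : ∀ n, N ≤ n → ExtZ R M.car M.car n) {i j l n : ℕ} (hj : 2 ≤ j)
    (hij : N + j + n + 1 ≤ i) (hjl : N + l ≤ j + 1) :
    (bt M (i - 1) * bt M j + ln R (maximalIdeal R).annihilator * (bt M i * bt M (j - 1)) -
      hl M i j) * mu R (sy M l).car n ≤ bt M (i - 1 - n) * hl M j l := by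
  have hV : ∀ i j, N + j ≤ 1 + i → ExtZ R (sy M i).car (sy M j).car 1 :=
    fun i j h' => ext_sy_sy M hR hM (n := 0) (by omega)
  have hE : ∀ i, ExtZ R (sy M i).car R 1 := fun i => ext_sy_ring M hR i 0
  obtain ⟨k, rfl⟩ : ∃ k, j = k + 2 := ⟨j - 2, by omega⟩
  have h1 : el R ((sy M i).car →ₗ[R] (sy M (k + 2)).car) (sy M l).car n ≤
      ((bt M (i - 1 - n) * hl M (k + 2) l : ℕ) : ℕ∞) := by
    obtain ⟨p, rfl⟩ : ∃ p, i = p + n + 1 := ⟨i - n - 1, by omega⟩
    have h2 : p + n + 1 - 1 - n = p := by omega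
    rw [h2]
    exact decay' M (sy M l).car p (k + 2) (fun i' _ => hV _ _ (by omega))
      (fun n => ext_sy_sy M hR hM (by omega)) n
  obtain ⟨m, rfl⟩ : ∃ m, i = m + 2 := ⟨i - 2, by omega⟩
  have h2 := gen_lower M m (k + 2) (hV _ _ (by omega)) (hV _ _ (by omega)) (hE _) (hE _)
  have h3 : ln R (maximalIdeal R).annihilator * (bt M (m + 2) * bt M (k + 1)) ≤
      ln R (SAC3.soc R ((sy M (m + 2)).car →ₗ[R] (sy M (k + 2)).car)) := by
    refine le_trans ?_ (soc_hom (R := R) (sy M (m + 2)).car (sy M (k + 2)).car)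
    calc ln R (maximalIdeal R).annihilator * (bt M (m + 2) * bt M (k + 1))
        = bt M (m + 2) * (bt M (k + 1) * ln R (maximalIdeal R).annihilator) := by ring
      _ ≤ bt M (m + 2) * ln R (SAC3.soc R (sy M (k + 2)).car) :=
        Nat.mul_le_mul_left _ (soc_sy M k)
  have h5 := retract_le _ _ (smul_le_soc M h4 (m + 1) (k + 1) (hV _ _ (by omega)) (hE _))
    (fun a ha x => Subtype.ext (x.2 a ha))
    (fun a ha x => by
      obtain ⟨y, rfl⟩ := Submodule.mkQ_surjective _ x
      rw [← map_smul]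
      exact (Submodule.Quotient.mk_eq_zero _).2 (Submodule.smul_mem_smul ha trivial))
    (sy M l).car n h2 h3
  have h6 := h5.trans h1
  exact_mod_cast h6

end pone

end SAC94
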